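import Mathlib

set_option autoImplicit false

namespace Pool.Agent.Results.MP_a06539_co.DetBound

open Finset

/-- The list of nonzero entries of a row, read from left to right. -/
noncomputable def nonzeroEntries {n : ℕ} (x : Fin n → ℝ) : List ℝ :=
  (List.ofFn x).filter fun y => y ≠ 0

/-- A real matrix is admissible if the nonzero entries of every row, read from left to right, form
one of the six lists of the problem. -/
def Admissible {m n : ℕ} (B : Matrix (Fin m) (Fin n) ℝ) : Prop :=
  ∀ i, nonzeroEntries (B i) = [1] ∨ nonzeroEntries (B i) = [-1, 2] ∨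
    nonzeroEntries (B i) = [2, -1] ∨ nonzeroEntries (B i) = [-1, 1, 1] ∨
    nonzeroEntries (B i) = [1, -1, 1] ∨ nonzeroEntries (B i) = [1, 1, -1]

/-- Hadamard's inequality in the form needed. -/
theorem abs_det_le {κ : Type} [Fintype κ] [DecidableEq κ] (A : Matrix κ κ ℝ)
    (h : ∀ r, ∑ G, A r G ^ 2 ≤ 4) : |A.det| ≤ 2 ^ Fintype.card κ := by
  classical
  set n := Fintype.card κ with hn
  let e : κ ≃ Fin n := Fintype.equivFin κ
  let A' : Matrix (Fin n) (Fin n) ℝ := A.submatrix e.symm e.symm
  have hdet : A'.det = A.det := Matrix.det_submatrix_equiv_self e.symm A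
  let b := EuclideanSpace.basisFun (Fin n) ℝ
  let v : Fin n → EuclideanSpace ℝ (Fin n) := fun i => WithLp.toLp 2 (A' i)
  haveI : Fact (Module.finrank ℝ (EuclideanSpace ℝ (Fin n)) = n) := ⟨by simp⟩
  let o := b.toBasis.orientation
  have h1 := o.abs_volumeForm_apply_le v
  rw [o.volumeForm_robust' b v] at h1
  have h2 : b.toBasis.det v = A'.det := by
    rw [Module.Basis.det_apply, ← Matrix.det_transpose A']
    congr 1
  rw [h2, hdet] at h1
  refine h1.trans ?_
  have h3 : ∀ i ∈ (univ : Finset (Fin n)), ‖v i‖ ≤ 2 := by
    intro i _
    rw [EuclideanSpace.norm_eq]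
    rw [show (2 : ℝ) = Real.sqrt 4 by
      rw [show (4 : ℝ) = 2 ^ 2 by norm_num]; exact (Real.sqrt_sq (by norm_num)).symm]
    apply Real.sqrt_le_sqrt
    have h4 := h (e.symm i)
    calc ∑ j, ‖(v i) j‖ ^ 2 = ∑ j, A (e.symm i) (e.symm j) ^ 2 := by
          refine Finset.sum_congr rfl fun j _ => ?_
          rw [Real.norm_eq_abs, sq_abs]
          rfl
      _ = ∑ G, A (e.symm i) G ^ 2 := Equiv.sum_comp e.symm fun G => A (e.symm i) G ^ 2
      _ ≤ 4 := h4
  calc ∏ i, ‖v i‖ ≤ ∏ _i : Fin n, (2 : ℝ) := Finset.prod_le_prod (fun i _ => norm_nonneg _) h3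
    _ = 2 ^ n := by simp

/-- The three row shapes. -/
def RowType {τ : Type} [DecidableEq τ] (x : τ → ℝ) : Prop :=
  (∃ a, x = Pi.single a 1) ∨ (∃ a b, a ≠ b ∧ x = Pi.single a 2 - Pi.single b 1) ∨
    ∃ a b c, a ≠ b ∧ a ≠ c ∧ b ≠ c ∧ x = Pi.single a 1 + Pi.single b 1 - Pi.single c 1

section contraction

variable {κ τ : Type} [Fintype κ] [DecidableEq κ] [Fintype τ] [DecidableEq τ]

/-- The contracted row: entry at the group `G`. -/
def con (γ : τ → Option κ) (w : τ → ℝ) (x : τ → ℝ) (G : κ) : ℝ :=
  ∑ t, if γ t = some G then x t * w t else 0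

/-- Contraction of a unit vector. -/
def un (γ : τ → Option κ) (w : τ → ℝ) (a : τ) (G : κ) : ℝ := if γ a = some G then w a else 0

theorem con_single (γ : τ → Option κ) (w : τ → ℝ) (a : τ) (v : ℝ) (G : κ) :
    con γ w (Pi.single a v) G = v * un γ w a G := by
  unfold con un
  rw [Finset.sum_eq_single a]
  · rw [Pi.single_eq_same]; split_ifs <;> simp
  · intro t _ ht
    rw [Pi.single_eq_of_ne ht]; simp
  · intro h; exact absurd (Finset.mem_univ a) h

theorem con_add (γ : τ → Option κ) (w : τ → ℝ) (x y : τ → ℝ) (G : κ) :
    con γ w (x + y) G = con γ w x G + con γ w y G := by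
  unfold con
  rw [← Finset.sum_add_distrib]
  refine Finset.sum_congr rfl fun t _ => ?_
  split_ifs
  · rw [Pi.add_apply, add_mul]
  · simp

theorem con_sub (γ : τ → Option κ) (w : τ → ℝ) (x y : τ → ℝ) (G : κ) :
    con γ w (x - y) G = con γ w x G - con γ w y G := by
  unfold con
  rw [← Finset.sum_sub_distrib]
  refine Finset.sum_congr rfl fun t _ => ?_
  split_ifs
  · rw [Pi.sub_apply, sub_mul]
  · simp

/-- The weight conditions. -/
structure Good (γ : τ → Option κ) (w : τ → ℝ) (W : κ → ℝ) : Prop where
  Wpos : ∀ G, 0 < W G
  wpos : ∀ t, 0 < w t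
  le : ∀ t G, γ t = some G → w t ≤ W G
  half : ∀ t t' G, t ≠ t' → γ t = some G → γ t' = some G → w t ≤ W G / 2 ∨ w t' ≤ W G / 2

/-- Scaled unit vector. -/
noncomputable def su (γ : τ → Option κ) (w : τ → ℝ) (W : κ → ℝ) (a : τ) (G : κ) : ℝ :=
  if γ a = some G then w a / W G else 0

theorem su_nonneg {γ : τ → Option κ} {w : τ → ℝ} {W : κ → ℝ} (hg : Good γ w W) (a : τ) (G : κ) :
    0 ≤ su γ w W a G := by
  unfold su
  split_ifs
  · exact div_nonneg (hg.wpos a).le (hg.Wpos G).le
  · exact le_refl _

theorem su_sq {γ : τ → Option κ} {w : τ → ℝ} {W : κ → ℝ} (hg : Good γ w W) (a : τ) :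
    ∑ G, su γ w W a G ^ 2 ≤ 1 := by
  rcases h : γ a with _ | G0
  · have : ∀ G, su γ w W a G = 0 := fun G => by unfold su; rw [h]; simp
    simp [this]
  · rw [Finset.sum_eq_single G0]
    · have h1 : su γ w W a G0 = w a / W G0 := by unfold su; rw [h]; simp
      have h2 : 0 ≤ su γ w W a G0 := su_nonneg hg a G0
      have h3 : su γ w W a G0 ≤ 1 := by
        rw [h1, div_le_one (hg.Wpos G0)]; exact hg.le a G0 h
      nlinarith
    · intro G _ hG
      have : su γ w W a G = 0 := by
        unfold su; rw [h]
        rw [if_neg]
        intro h'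
        exact hG (Option.some.inj h').symm
      rw [this]; ring
    · intro h'; exact absurd (Finset.mem_univ G0) h'

theorem su_mul {γ : τ → Option κ} {w : τ → ℝ} {W : κ → ℝ} (hg : Good γ w W) {a b : τ}
    (hab : a ≠ b) : ∑ G, su γ w W a G * su γ w W b G ≤ 1 / 2 := by
  rcases h : γ a with _ | G0
  · have : ∀ G, su γ w W a G = 0 := fun G => by unfold su; rw [h]; simp
    simp only [this, zero_mul, Finset.sum_const_zero]; norm_num
  · rw [Finset.sum_eq_single G0]
    · have h1 : su γ w W a G0 = w a / W G0 := by unfold su; rw [h]; simp
      by_cases hb : γ b = some G0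
      · have h2 : su γ w W b G0 = w b / W G0 := by unfold su; rw [hb]; simp
        have hW := hg.Wpos G0
        have ha1 : w a / W G0 ≤ 1 := by rw [div_le_one hW]; exact hg.le a G0 h
        have hb1 : w b / W G0 ≤ 1 := by rw [div_le_one hW]; exact hg.le b G0 hb
        have ha0 : 0 ≤ w a / W G0 := div_nonneg (hg.wpos a).le hW.le
        have hb0 : 0 ≤ w b / W G0 := div_nonneg (hg.wpos b).le hW.le
        rw [h1, h2]
        rcases hg.half a b G0 hab h hb with h3 | h3
        · have : w a / W G0 ≤ 1 / 2 := by rw [div_le_iff₀ hW]; linarith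
          nlinarith
        · have : w b / W G0 ≤ 1 / 2 := by rw [div_le_iff₀ hW]; linarith
          nlinarith
      · have : su γ w W b G0 = 0 := by unfold su; rw [if_neg hb]
        rw [this]; norm_num
    · intro G _ hG
      have : su γ w W a G = 0 := by
        unfold su; rw [h]
        rw [if_neg]
        intro h'
        exact hG (Option.some.inj h').symm
      rw [this]; ring
    · intro h'; exact absurd (Finset.mem_univ G0) h'

theorem un_div {γ : τ → Option κ} {w : τ → ℝ} {W : κ → ℝ} (a : τ) (G : κ) :
    un γ w a G / W G = su γ w W a G := by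
  unfold un su; split_ifs <;> simp

/-- A row is reducible if it is of the form `2 e_a - e_b` with `a`, `b` in different groups. -/
def Reducible (γ : τ → Option κ) (x : τ → ℝ) : Prop :=
  ∃ a b G H, a ≠ b ∧ x = Pi.single a 2 - Pi.single b 1 ∧ γ a = some G ∧ γ b = some H ∧ G ≠ H

theorem norm_le {γ : τ → Option κ} {w : τ → ℝ} {W : κ → ℝ} (hg : Good γ w W) {x : τ → ℝ}
    (hx : RowType x) (hred : ¬ Reducible γ x) : ∑ G, (con γ w x G / W G) ^ 2 ≤ 4 := by
  rcases hx with ⟨a, rfl⟩ | ⟨a, b, hab, rfl⟩ | ⟨a, b, c, hab, hac, hbc, rfl⟩
  · have : ∀ G, con γ w (Pi.single a 1) G / W G = su γ w W a G := fun G => by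
      rw [con_single, one_mul, un_div]
    simp only [this]
    linarith [su_sq hg a]
  · have e : ∀ G, con γ w (Pi.single a 2 - Pi.single b 1) G / W G =
        2 * su γ w W a G - su γ w W b G := fun G => by
      rw [con_sub, con_single, con_single, sub_div, one_mul, mul_div_assoc, un_div, un_div]
    simp only [e]
    have hexp : ∑ G, (2 * su γ w W a G - su γ w W b G) ^ 2 ≤
        ∑ G, (4 * su γ w W a G ^ 2 + su γ w W b G * (su γ w W b G - 2 * su γ w W a G)) := by
      refine Finset.sum_le_sum fun G _ => ?_
      have h1 := su_nonneg hg a G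
      have h2 := su_nonneg hg b G
      nlinarith [mul_nonneg h1 h2]
    by_cases hb : ∃ H, γ b = some H
    · obtain ⟨H, hH⟩ := hb
      by_cases ha : ∃ G, γ a = some G
      · obtain ⟨G, hG⟩ := ha
        have hGH : G = H := by
          by_contra hne
          exact hred ⟨a, b, G, H, hab, rfl, hG, hH, hne⟩
        subst hGH
        rw [Finset.sum_eq_single G]
        · have h1 : su γ w W a G = w a / W G := by unfold su; rw [hG]; simp
          have h2 : su γ w W b G = w b / W G := by unfold su; rw [hH]; simp
          have hW := hg.Wpos G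
          have ha1 : w a / W G ≤ 1 := by rw [div_le_one hW]; exact hg.le a G hG
          have hb1 : w b / W G ≤ 1 := by rw [div_le_one hW]; exact hg.le b G hH
          have ha0 : 0 ≤ w a / W G := div_nonneg (hg.wpos a).le hW.le
          have hb0 : 0 ≤ w b / W G := div_nonneg (hg.wpos b).le hW.le
          rw [h1, h2]
          nlinarith
        · intro G' _ hG'
          have h1 : su γ w W a G' = 0 := by
            unfold su; rw [hG, if_neg]; intro h'; exact hG' (Option.some.inj h').symm
          have h2 : su γ w W b G' = 0 := by
            unfold su; rw [hH, if_neg]; intro h'; exact hG' (Option.some.inj h').symm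
          rw [h1, h2]; ring
        · intro h'; exact absurd (Finset.mem_univ G) h'
      · have h1 : ∀ G, su γ w W a G = 0 := by
          intro G
          unfold su
          rw [if_neg]
          intro h'; exact ha ⟨G, h'⟩
        simp only [h1]
        have := su_sq hg b
        have e2 : ∀ G, (2 * 0 - su γ w W b G) ^ 2 = su γ w W b G ^ 2 := fun G => by ring
        simp only [e2]
        linarith
    · have h1 : ∀ G, su γ w W b G = 0 := by
        intro G
        unfold su
        rw [if_neg]
        intro h'; exact hb ⟨G, h'⟩
      simp only [h1]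
      have := su_sq hg a
      have e2 : ∀ G, (2 * su γ w W a G - 0) ^ 2 = 4 * su γ w W a G ^ 2 := fun G => by ring
      simp only [e2, ← Finset.mul_sum]
      linarith
  · have e : ∀ G, con γ w (Pi.single a 1 + Pi.single b 1 - Pi.single c 1) G / W G =
        su γ w W a G + su γ w W b G - su γ w W c G := fun G => by
      rw [con_sub, con_add, con_single, con_single, con_single, sub_div, add_div, one_mul, one_mul,
        one_mul, un_div, un_div, un_div]
    simp only [e]
    calc ∑ G, (su γ w W a G + su γ w W b G - su γ w W c G) ^ 2
        ≤ ∑ G, (su γ w W a G ^ 2 + su γ w W b G ^ 2 + su γ w W c G ^ 2 +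
          2 * (su γ w W a G * su γ w W b G)) := by
          refine Finset.sum_le_sum fun G _ => ?_
          have h1 := su_nonneg hg a G
          have h2 := su_nonneg hg b G
          have h3 := su_nonneg hg c G
          nlinarith [mul_nonneg h1 h3, mul_nonneg h2 h3]
      _ = ∑ G, su γ w W a G ^ 2 + ∑ G, su γ w W b G ^ 2 + ∑ G, su γ w W c G ^ 2 +
          2 * ∑ G, su γ w W a G * su γ w W b G := by
          rw [Finset.mul_sum, ← Finset.sum_add_distrib, ← Finset.sum_add_distrib,
            ← Finset.sum_add_distrib]
      _ ≤ 1 + 1 + 1 + 2 * (1 / 2) := by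
          have := su_sq hg a
          have := su_sq hg b
          have := su_sq hg c
          have := su_mul hg hab
          linarith
      _ = 4 := by norm_num

end contraction

/-- The main induction: contract the rows `2 e_a - e_b` one at a time. -/
theorem main (N : ℕ) : ∀ (κ τ : Type) [Fintype κ] [DecidableEq κ] [Fintype τ] [DecidableEq τ]
    (b : κ → τ → ℝ) (γ : τ → Option κ) (w : τ → ℝ) (W : κ → ℝ), Fintype.card κ = N →
    (∀ r, RowType (b r)) → Good γ w W →
    |(Matrix.of fun r G => con γ w (b r) G : Matrix κ κ ℝ).det| ≤ 2 ^ N * ∏ G, W G := by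
  classical
  induction N with
  | zero =>
    intro κ τ _ _ _ _ b γ w W hcard _ _
    have : IsEmpty κ := Fintype.card_eq_zero_iff.1 hcard
    simp
  | succ N ih =>
    intro κ τ _ _ _ _ b γ w W hcard hrow hg
    by_cases hred : ∃ r, Reducible γ (b r)
    · obtain ⟨r0, a, b', G, H, hab, hx, hG, hH, hGH⟩ := hred
      -- move the row `r0` to the index `H`
      let π : Equiv.Perm κ := Equiv.swap r0 H
      let M : Matrix κ κ ℝ := Matrix.of fun r G => con γ w (b (π r)) G
      have hM : |(Matrix.of fun r G => con γ w (b r) G : Matrix κ κ ℝ).det| = |M.det| := by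
        have h1 : M = (Matrix.of fun r G => con γ w (b r) G : Matrix κ κ ℝ).submatrix π id := rfl
        rw [h1, Matrix.det_permute, abs_mul]
        have h2 : |(((Equiv.Perm.sign π : ℤˣ) : ℤ) : ℝ)| = 1 := by
          rcases Int.units_eq_one_or (Equiv.Perm.sign π) with h | h <;> rw [h] <;> simp
        rw [h2, one_mul]
      rw [hM]
      have hrowH : ∀ G', M H G' = 2 * un γ w a G' - un γ w b' G' := by
        intro G'
        show con γ w (b (π H)) G' = _
        rw [show π H = r0 from Equiv.swap_apply_right r0 H, hx, con_sub, con_single, con_single,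
          one_mul]
      have hwb := hg.wpos b'
      have hwa := hg.wpos a
      have unaG : un γ w a G = w a := by unfold un; rw [hG]; simp
      have unaN : ∀ G', G' ≠ G → un γ w a G' = 0 := by
        intro G' h'; unfold un; rw [hG, if_neg]; intro h''; exact h' (Option.some.inj h'').symm
      have unbH : un γ w b' H = w b' := by unfold un; rw [hH]; simp
      have unbN : ∀ G', G' ≠ H → un γ w b' G' = 0 := by
        intro G' h'; unfold un; rw [hH, if_neg]; intro h''; exact h' (Option.some.inj h'').symm
      set c : ℝ := 2 * w a / w b' with hc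
      have hcpos : 0 < c := by rw [hc]; positivity
      let M1 : Matrix κ κ ℝ := M.updateCol G fun k => M k G + c • M k H
      have hdet1 : M1.det = M.det := Matrix.det_updateCol_add_smul_self M hGH c
      have hM1G : ∀ r, M1 r G = M r G + c * M r H := by
        intro r
        show (M.updateCol G fun k => M k G + c • M k H) r G = _
        rw [Matrix.updateCol_self]; rfl
      have hM1N : ∀ r G', G' ≠ G → M1 r G' = M r G' := by
        intro r G' h'
        exact Matrix.updateCol_ne h'
      have hzero : ∀ i, ¬ (i ≠ H) → ∀ j, j ≠ H → M1 i j = 0 := by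
        intro i hi j hj
        have hi' : i = H := not_not.1 hi
        subst hi'
        by_cases hjG : j = G
        · subst hjG
          rw [hM1G, hrowH, hrowH, unaG, unbH, unbN j hj, unaN i (Ne.symm hGH), hc]
          field_simp
          ring
        · rw [hM1N _ _ hjG, hrowH, unaN j hjG, unbN j hj]; ring
      have hblock := Matrix.twoBlockTriangular_det M1 (fun i => i ≠ H) hzero
      have hsecond : (M1.toSquareBlockProp fun i => ¬ (i ≠ H)).det = - w b' := by
        haveI : Subsingleton {i : κ // ¬ (i ≠ H)} :=
          ⟨fun x y => Subtype.ext ((not_not.1 x.2).trans (not_not.1 y.2).symm)⟩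
        rw [Matrix.det_eq_elem_of_subsingleton _ ⟨H, by simp⟩]
        show M1 H H = - w b'
        rw [hM1N _ _ (Ne.symm hGH), hrowH, unaN H (Ne.symm hGH), unbH]
        ring
      -- the contracted data
      let κ' := {i : κ // i ≠ H}
      let G0 : κ' := ⟨G, hGH⟩
      let γ' : τ → Option κ' := fun t =>
        match γ t with
        | none => none
        | some x => if h : x = H then some G0 else some ⟨x, h⟩
      let w' : τ → ℝ := fun t => if γ t = some H then c * w t else w t
      let W' : κ' → ℝ := fun x => if x = G0 then 2 * W G * W H / w b' else W x.1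
      let β : κ' → τ → ℝ := fun r => b (π r.1)
      have γ'_none : ∀ t, γ t = none → γ' t = none := by
        intro t ht; simp only [γ', ht]
      have γ'_H : ∀ t, γ t = some H → γ' t = some G0 := by
        intro t ht; simp only [γ', ht, dif_pos]
      have γ'_some : ∀ t x (hx : x ≠ H), γ t = some x → γ' t = some ⟨x, hx⟩ := by
        intro t x hx ht; simp only [γ', ht, dif_neg hx]
      have γ'_cases : ∀ t (x : κ'), γ' t = some x ↔ (γ t = some x.1 ∨ (γ t = some H ∧ x = G0)) := by
        intro t x
        rcases h : γ t with _ | y
        · rw [γ'_none t h]; simp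
        · by_cases hy : y = H
          · subst hy
            rw [γ'_H t h]
            constructor
            · intro h'; right; exact ⟨rfl, (Option.some.inj h').symm⟩
            · rintro (h' | ⟨-, h'⟩)
              · exact absurd (Option.some.inj h').symm x.2
              · rw [h']
          · rw [γ'_some t y hy h]
            constructor
            · intro h'
              left
              rw [← Option.some.inj h']
            · rintro (h' | ⟨h', -⟩)
              · congr 1
                exact Subtype.ext (Option.some.inj h')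
              · exact absurd (Option.some.inj h') hy
      have hWG := hg.Wpos G
      have hWH := hg.Wpos H
      have hwbH := hg.le b' H hH
      have hwaG := hg.le a G hG
      have hW'G : W' G0 = 2 * W G * W H / w b' := if_pos rfl
      have hW'N : ∀ x, x ≠ G0 → W' x = W x.1 := fun x hx => if_neg hx
      have hbig : W G ≤ W' G0 / 2 := by
        rw [hW'G]
        rw [show 2 * W G * W H / w b' / 2 = W G * (W H / w b') by ring]
        have : 1 ≤ W H / w b' := by rw [one_le_div hwb]; exact hwbH
        nlinarith
      have hcW : ∀ t, γ t = some H → c * w t ≤ W' G0 := by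
        intro t ht
        have := hg.le t H ht
        rw [hW'G, hc]
        rw [show 2 * w a / w b' * w t = (2 * w a * w t) / w b' by ring]
        apply div_le_div_of_nonneg_right _ hwb.le
        have := hg.wpos t
        nlinarith [mul_le_mul hwaG (hg.le t H ht) (hg.wpos t).le hWG.le]
      have hcW2 : ∀ t, γ t = some H → w t ≤ W H / 2 → c * w t ≤ W' G0 / 2 := by
        intro t ht ht2
        rw [hW'G, hc]
        rw [show 2 * w a / w b' * w t = (2 * w a * w t) / w b' by ring,
          show 2 * W G * W H / w b' / 2 = (W G * W H) / w b' by ring]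
        apply div_le_div_of_nonneg_right _ hwb.le
        nlinarith [mul_le_mul hwaG ht2 (hg.wpos t).le hWG.le]
      have hgood : Good γ' w' W' := by
        refine ⟨?_, ?_, ?_, ?_⟩
        · intro x
          by_cases hx : x = G0
          · rw [hx, hW'G]; positivity
          · rw [hW'N x hx]; exact hg.Wpos _
        · intro t
          show 0 < if γ t = some H then c * w t else w t
          have := hg.wpos t
          split_ifs <;> positivity
        · intro t x ht
          rw [γ'_cases] at ht
          show (if γ t = some H then c * w t else w t) ≤ W' x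
          rcases ht with ht | ⟨ht, rfl⟩
          · have hne : γ t ≠ some H := by
              rw [ht]; intro h'; exact x.2 (Option.some.inj h')
            rw [if_neg hne]
            by_cases hx : x = G0
            · subst hx
              have := hg.le t G ht
              have : 0 < W' G0 := by rw [hW'G]; positivity
              linarith
            · rw [hW'N x hx]; exact hg.le t _ ht
          · rw [if_pos ht]; exact hcW t ht
        · intro t t' x htt' ht ht'
          rw [γ'_cases] at ht ht'
          show (if γ t = some H then c * w t else w t) ≤ W' x / 2 ∨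
            (if γ t' = some H then c * w t' else w t') ≤ W' x / 2
          by_cases hx : x = G0
          · subst hx
            rcases ht with ht | ⟨ht, -⟩
            · left
              have hne : γ t ≠ some H := by
                rw [ht]; intro h'; exact hGH (Option.some.inj h')
              rw [if_neg hne]
              exact (hg.le t G ht).trans hbig
            · rcases ht' with ht' | ⟨ht', -⟩
              · right
                have hne : γ t' ≠ some H := by
                  rw [ht']; intro h'; exact hGH (Option.some.inj h')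
                rw [if_neg hne]
                exact (hg.le t' G ht').trans hbig
              · rw [if_pos ht, if_pos ht']
                rcases hg.half t t' H htt' ht ht' with h1 | h1
                · left; exact hcW2 t ht h1
                · right; exact hcW2 t' ht' h1
          · have e1 : γ t = some x.1 := by
              rcases ht with ht | ⟨-, ht⟩
              · exact ht
              · exact absurd ht hx
            have e2 : γ t' = some x.1 := by
              rcases ht' with ht' | ⟨-, ht'⟩
              · exact ht'
              · exact absurd ht' hx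
            have n1 : γ t ≠ some H := by
              rw [e1]; intro h'; exact x.2 (Option.some.inj h')
            have n2 : γ t' ≠ some H := by
              rw [e2]; intro h'; exact x.2 (Option.some.inj h')
            rw [if_neg n1, if_neg n2, hW'N x hx]
            exact hg.half t t' x.1 htt' e1 e2
      have hentry : (M1.toSquareBlockProp fun i => i ≠ H) =
          (Matrix.of fun r x => con γ' w' (β r) x : Matrix κ' κ' ℝ) := by
        ext r x
        show M1 r.1 x.1 = con γ' w' (b (π r.1)) x
        by_cases hx : x = G0
        · subst hx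
          rw [show ((G0 : κ') : κ) = G from rfl, hM1G]
          show con γ w (b (π r.1)) G + c * con γ w (b (π r.1)) H = _
          unfold con
          rw [Finset.mul_sum, ← Finset.sum_add_distrib]
          refine Finset.sum_congr rfl fun t _ => ?_
          by_cases h1 : γ t = some G
          · have h2 : γ t ≠ some H := by rw [h1]; intro h'; exact hGH (Option.some.inj h')
            have h3 : γ' t = some G0 := (γ'_cases t G0).2 (Or.inl h1)
            rw [if_pos h1, if_neg h2, if_pos h3]
            show _ = _ * (if γ t = some H then c * w t else w t)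
            rw [if_neg h2]; ring
          · by_cases h2 : γ t = some H
            · have h3 : γ' t = some G0 := (γ'_cases t G0).2 (Or.inr ⟨h2, rfl⟩)
              rw [if_neg h1, if_pos h2, if_pos h3]
              show _ = _ * (if γ t = some H then c * w t else w t)
              rw [if_pos h2]; ring
            · have h3 : γ' t ≠ some G0 := by
                rw [Ne, γ'_cases]
                rintro (h' | ⟨h', -⟩)
                · exact h1 h'
                · exact h2 h'
              rw [if_neg h1, if_neg h2, if_neg h3]; ring
        · have hx1 : x.1 ≠ G := fun h' => hx (Subtype.ext h')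
          rw [hM1N _ _ hx1]
          show con γ w (b (π r.1)) x.1 = _
          unfold con
          refine Finset.sum_congr rfl fun t _ => ?_
          by_cases h1 : γ t = some x.1
          · have h2 : γ t ≠ some H := by rw [h1]; intro h'; exact x.2 (Option.some.inj h')
            rw [if_pos h1, if_pos ((γ'_cases t x).2 (Or.inl h1))]
            show _ = _ * (if γ t = some H then c * w t else w t)
            rw [if_neg h2]
          · have h3 : γ' t ≠ some x := by
              rw [Ne, γ'_cases]
              rintro (h' | ⟨-, h'⟩)
              · exact h1 h'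
              · exact hx h'
            rw [if_neg h1, if_neg h3]
      have hcard' : Fintype.card κ' = N := by
        show Fintype.card {i : κ // i ≠ H} = N
        rw [Fintype.card_subtype_compl, Fintype.card_subtype_eq, hcard]; rfl
      have hih := ih κ' τ β γ' w' W' hcard' (fun r => hrow _) hgood
      rw [← hentry] at hih
      rw [← hdet1, hblock, hsecond, abs_mul, abs_neg, abs_of_pos hwb]
      have hprod : (∏ x : κ', W' x) * w b' = 2 * ∏ x : κ, W x := by
        have e1 : ∏ x : κ', W' x = (∏ x : κ', W x.1) * (2 * W H / w b') := by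
          have : ∀ x : κ', W' x = W x.1 * (if x = G0 then 2 * W H / w b' else 1) := by
            intro x
            by_cases hx : x = G0
            · subst hx
              rw [hW'G, if_pos rfl]
              show _ = W G * _
              ring
            · rw [hW'N x hx, if_neg hx, mul_one]
          simp only [this]
          rw [Finset.prod_mul_distrib, Finset.prod_ite_eq' univ G0]
          simp
        have e2 : (∏ x : κ', W x.1) * W H = ∏ x : κ, W x := by
          rw [← Finset.prod_erase_mul univ W (Finset.mem_univ H)]
          congr 1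
          rw [← Finset.prod_subtype (univ.erase H) (fun x => by simp) W]
        rw [e1, ← e2]
        field_simp
      calc |(M1.toSquareBlockProp fun i => i ≠ H).det| * w b'
          ≤ (2 ^ N * ∏ x : κ', W' x) * w b' := mul_le_mul_of_nonneg_right hih hwb.le
        _ = 2 ^ N * ((∏ x : κ', W' x) * w b') := by ring
        _ = 2 ^ (N + 1) * ∏ x : κ, W x := by rw [hprod]; ring
    · push Not at hred
      -- scale the columns and use Hadamard's inequality
      let A : Matrix κ κ ℝ := Matrix.of fun r G => con γ w (b r) G / W G
      have hA := abs_det_le A fun r => norm_le hg (hrow r) (hred r)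
      have hfac : (Matrix.of fun r G => con γ w (b r) G : Matrix κ κ ℝ) =
          Matrix.of fun i j => W j * A i j := by
        ext r G
        show con γ w (b r) G = W G * (con γ w (b r) G / W G)
        have := (hg.Wpos G).ne'
        field_simp
      rw [hfac, Matrix.det_mul_row, abs_mul, abs_of_pos (Finset.prod_pos fun G _ => hg.Wpos G),
        mul_comm]
      rw [hcard] at hA
      exact mul_le_mul_of_nonneg_right hA (Finset.prod_nonneg fun G _ => (hg.Wpos G).le)

/-- Positions of the nonzero entries. -/
theorem positions {n : ℕ} (x : Fin n → ℝ) :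
    ∃ I : List (Fin n), I.Nodup ∧ nonzeroEntries x = I.map x ∧ ∀ i, i ∉ I → x i = 0 := by
  classical
  refine ⟨(List.finRange n).filter fun i => x i ≠ 0, (List.nodup_finRange n).filter _, ?_, ?_⟩
  · unfold nonzeroEntries
    rw [List.ofFn_eq_map, List.filter_map]
    rfl
  · intro i hi
    by_contra h
    exact hi (List.mem_filter.2 ⟨List.mem_finRange i, by simpa using h⟩)

theorem rowType_of {n : ℕ} (x : Fin n → ℝ)
    (h : nonzeroEntries x = [1] ∨ nonzeroEntries x = [-1, 2] ∨ nonzeroEntries x = [2, -1] ∨
      nonzeroEntries x = [-1, 1, 1] ∨ nonzeroEntries x = [1, -1, 1] ∨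
      nonzeroEntries x = [1, 1, -1]) : RowType x := by
  obtain ⟨I, hnd, hI, hz⟩ := positions x
  rw [hI] at h
  have two : ∀ u v : ℝ, I.map x = [u, v] → ∃ a b, a ≠ b ∧ x a = u ∧ x b = v ∧
      ∀ i, i ≠ a → i ≠ b → x i = 0 := by
    intro u v huv
    match I, hnd, hz, huv with
    | [a, b], hnd, hz, huv =>
      simp only [List.map_cons, List.map_nil, List.cons.injEq, and_true] at huv
      refine ⟨a, b, by simpa using hnd, huv.1, huv.2, fun i h1 h2 => hz i (by simp [h1, h2])⟩
  have three : ∀ u v w : ℝ, I.map x = [u, v, w] → ∃ a b c, a ≠ b ∧ a ≠ c ∧ b ≠ c ∧ x a = u ∧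
      x b = v ∧ x c = w ∧ ∀ i, i ≠ a → i ≠ b → i ≠ c → x i = 0 := by
    intro u v w huv
    match I, hnd, hz, huv with
    | [a, b, c], hnd, hz, huv =>
      simp only [List.map_cons, List.map_nil, List.cons.injEq, and_true] at huv
      simp only [List.nodup_cons, List.mem_cons, List.not_mem_nil, or_false, not_or,
        not_false_eq_true, List.nodup_nil, and_true] at hnd
      refine ⟨a, b, c, hnd.1.1, hnd.1.2, hnd.2, huv.1, huv.2.1, huv.2.2,
        fun i h1 h2 h3 => hz i (by simp [h1, h2, h3])⟩
  have mk2 : ∀ a b, a ≠ b → x a = 2 → x b = -1 → (∀ i, i ≠ a → i ≠ b → x i = 0) → RowType x := by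
    intro a b hab ha hb h0
    right; left
    refine ⟨a, b, hab, ?_⟩
    funext i
    by_cases h1 : i = a
    · subst h1; simp [ha, hab]
    · by_cases h2 : i = b
      · subst h2; simp [hb, h1]
      · simp [h0 i h1 h2, h1, h2]
  have mk3 : ∀ a b c, a ≠ b → a ≠ c → b ≠ c → x a = 1 → x b = 1 → x c = -1 →
      (∀ i, i ≠ a → i ≠ b → i ≠ c → x i = 0) → RowType x := by
    intro a b c hab hac hbc ha hb hc h0
    right; right
    refine ⟨a, b, c, hab, hac, hbc, ?_⟩
    funext i
    by_cases h1 : i = a
    · subst h1; simp [ha, hab, hac]
    · by_cases h2 : i = b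
      · subst h2; simp [hb, h1, hbc]
      · by_cases h3 : i = c
        · subst h3; simp [hc, h1, h2]
        · simp [h0 i h1 h2 h3, h1, h2, h3]
  rcases h with h | h | h | h | h | h
  · left
    have hlen : I.length = 1 := by simpa using congrArg List.length h
    obtain ⟨a, rfl⟩ := List.length_eq_one_iff.1 hlen
    simp only [List.map_cons, List.map_nil, List.cons.injEq, and_true] at h
    refine ⟨a, ?_⟩
    funext i
    by_cases h1 : i = a
    · subst h1; simp [h]
    · simp [hz i (by simp [h1]), h1]
  · obtain ⟨a, b, hab, ha, hb, h0⟩ := two _ _ h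
    exact mk2 b a hab.symm hb ha fun i h1 h2 => h0 i h2 h1
  · obtain ⟨a, b, hab, ha, hb, h0⟩ := two _ _ h
    exact mk2 a b hab ha hb h0
  · obtain ⟨a, b, c, hab, hac, hbc, ha, hb, hc, h0⟩ := three _ _ _ h
    exact mk3 b c a hbc hab.symm hac.symm hb hc ha fun i h1 h2 h3 => h0 i h3 h1 h2
  · obtain ⟨a, b, c, hab, hac, hbc, ha, hb, hc, h0⟩ := three _ _ _ h
    exact mk3 a c b hac hab hbc.symm ha hc hb fun i h1 h2 h3 => h0 i h1 h3 h2
  · obtain ⟨a, b, c, hab, hac, hbc, ha, hb, hc, h0⟩ := three _ _ _ h
    exact mk3 a b c hab hac hbc ha hb hc h0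

/-- **MP_a06539_co, Q1, answered affirmatively.**  For every admissible matrix `B` with `m` rows
and `n = m + 1` columns and every column index `j`, the minor obtained by deleting column `j`
satisfies `|det B^{(j)}| ≤ 2 ^ m = 2 ^ (n - 1)`. -/
theorem result (m : ℕ) (B : Matrix (Fin m) (Fin (m + 1)) ℝ) (hB : Admissible B)
    (j : Fin (m + 1)) : |(B.submatrix id j.succAbove).det| ≤ 2 ^ m := by
  classical
  let γ : Fin (m + 1) → Option (Fin m) := finSuccEquiv' j
  have hgood : Good γ (fun _ => (1 : ℝ)) (fun _ => (1 : ℝ)) := by
    refine ⟨fun _ => one_pos, fun _ => one_pos, fun _ _ _ => le_refl _, ?_⟩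
    intro t t' G htt' ht ht'
    exact absurd ((finSuccEquiv' j).injective (ht.trans ht'.symm)) htt'
  have h := main m (Fin m) (Fin (m + 1)) (fun r => B r) γ (fun _ => 1) (fun _ => 1)
    (Fintype.card_fin m) (fun r => rowType_of _ (hB r)) hgood
  have hmat : (Matrix.of fun r G => con γ (fun _ => (1 : ℝ)) (B r) G : Matrix (Fin m) (Fin m) ℝ) =
      B.submatrix id j.succAbove := by
    ext r G
    show con γ (fun _ => (1 : ℝ)) (B r) G = B r (j.succAbove G)
    unfold con
    rw [Finset.sum_eq_single (j.succAbove G)]
    · rw [if_pos (finSuccEquiv'_succAbove j G), mul_one]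
    · intro t _ ht
      rw [if_neg]
      intro h'
      exact ht ((finSuccEquiv' j).injective (h'.trans (finSuccEquiv'_succAbove j G).symm))
    · intro h'; exact absurd (Finset.mem_univ _) h'
  rw [hmat] at h
  simpa using h

end Pool.Agent.Results.MP_a06539_co.DetBound
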